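import Pool.Agent.helper47.TK.All
import Pool.Agent.helper88.TC.Spec
import Pool.Agent.helper91.TC.FB0
import Pool.Agent.helper34.TC.FB1
import Pool.Agent.helper62.TC.FB10
import Pool.Agent.helper32.TC.FB2
import Pool.Agent.helper95.TC.FB3
import Pool.Agent.helper80.TC.FB4
import Pool.Agent.helper55.TC.FB5
import Pool.Agent.helper62.TC.FB6
import Pool.Agent.helper11.TC.FB7
import Pool.Agent.helper73.TC.FB8
import Pool.Agent.helper31.TC.FB9
import Pool.Agent.helper18.TC.FBZ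

namespace Pool.Agent.TC

theorem T_CK2 : GJ.CK2_stmt := GJ.CK2 FJ.t_F1

theorem T_FB5 : FB5_stmt := FB5 FB2 FB3 FB4

theorem T_FB7 : FB7_stmt := FB7 FB1 T_FB5 (FB6 FB2)

theorem T_TC : TC_stmt :=
  FBZ FB0 T_FB7 (FB8 T_CK2) (FB9 FB2 FB4) (FB10 SJ.TQA3 FB3) TKAll.T_GT

end Pool.Agent.TC

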